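import Pool.Agent.N329.SD.Stm

/-!
Project SD (helper329), part PRE: pullback of a lightface Sigma^1_2 set of reals.
-/

set_option autoImplicit false

namespace Pool.Agent.N861.SD.Pre

open Pool.Agent.N329.SD Primrec

/-! ## Computability of the name -/

theorem num_congr (x y x' y' : ℕ → ℕ) (i : ℕ) (hx : ∀ j < i, x j % 2 = x' j % 2)
    (hy : ∀ j < i, y j % 2 = y' j % 2) : num x y i = num x' y' i := by
  induction i with
  | zero => rfl
  | succ i ih =>
    rw [num, num, ih (fun j hj => hx j (by omega)) (fun j hj => hy j (by omega)),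
      hx i (by omega), hy i (by omega)]

/-- `num` for finite sequences. -/
def nl (s v : List ℕ) (i : ℕ) : ℕ := num (fun j => s.getD j 0) (fun j => v.getD j 0) i

/-- The initial segment of the name. -/
def FF (s v : List ℕ) : List ℕ :=
  (List.range s.length).map (fun i => Nat.pair (nl s v i) (Nat.pair 0 (8 ^ i - 1)))

theorem nl_eq (s v : List ℕ) (i : ℕ) : nl s v i =
    Nat.rec (motive := fun _ => ℕ) 0
      (fun j a => 8 * a + (2 * (s.getD j 0 % 2) + v.getD j 0 % 2)) i := by
  induction i with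
  | zero => rfl
  | succ i ih =>
    show num _ _ (i + 1) = _
    rw [num]
    show 8 * nl s v i + _ = _
    rw [ih]

theorem prim_nl : Primrec₂ (fun (p : List ℕ × List ℕ) (i : ℕ) => nl p.1 p.2 i) := by
  have h : Primrec (fun q : (List ℕ × List ℕ) × ℕ =>
      Nat.rec (motive := fun _ => ℕ) 0
        (fun j a => 8 * a + (2 * (q.1.1.getD j 0 % 2) + q.1.2.getD j 0 % 2)) q.2) := by
    refine Primrec.nat_rec' (f := fun q : (List ℕ × List ℕ) × ℕ => q.2) (g := fun _ => 0)
      (h := fun q c => 8 * c.2 + (2 * (q.1.1.getD c.1 0 % 2) + q.1.2.getD c.1 0 % 2))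
      Primrec.snd (Primrec.const 0) ?_
    have e1 : Primrec (fun r : ((List ℕ × List ℕ) × ℕ) × (ℕ × ℕ) => r.1.1.1.getD r.2.1 0) :=
      (Primrec.list_getD 0).comp (Primrec.fst.comp (Primrec.fst.comp Primrec.fst))
        (Primrec.fst.comp Primrec.snd)
    have e2 : Primrec (fun r : ((List ℕ × List ℕ) × ℕ) × (ℕ × ℕ) => r.1.1.2.getD r.2.1 0) :=
      (Primrec.list_getD 0).comp (Primrec.snd.comp (Primrec.fst.comp Primrec.fst))
        (Primrec.fst.comp Primrec.snd)
    exact Primrec.nat_add.comp
      (Primrec.nat_mul.comp (Primrec.const 8) (Primrec.snd.comp Primrec.snd))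
      (Primrec.nat_add.comp
        (Primrec.nat_mul.comp (Primrec.const 2) (Primrec.nat_mod.comp e1 (Primrec.const 2)))
        (Primrec.nat_mod.comp e2 (Primrec.const 2)))
  exact h.of_eq (fun q => (nl_eq _ _ _).symm)

theorem prim_pow : Primrec (fun i : ℕ => 8 ^ i) :=
  (Primrec₂.unpaired'.1 Nat.Primrec.pow).comp (Primrec.const 8) Primrec.id

theorem prim_FF : Primrec (fun p : List ℕ × List ℕ => FF p.1 p.2) := by
  refine Primrec.list_map (Primrec.list_range.comp (Primrec.list_length.comp Primrec.fst)) ?_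
  refine Primrec₂.natPair.comp prim_nl ?_
  exact Primrec₂.natPair.comp (Primrec.const 0)
    (Primrec.nat_sub.comp (prim_pow.comp Primrec.snd) (Primrec.const 1))

theorem length_pre (x : ℕ → ℕ) (k : ℕ) : (pre x k).length = k := by simp [pre]

theorem getD_pre (x : ℕ → ℕ) (k i : ℕ) (h : i < k) : (pre x k).getD i 0 = x i := by
  simp [pre, List.getD, h]

theorem FF_pre (x y : ℕ → ℕ) (k : ℕ) (v : List ℕ) (hv : ∀ i < k, v.getD i 0 = y i % 2) :
    FF (pre x k) v = pre (nm x y) k := by
  unfold FF
  rw [length_pre]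
  unfold pre
  apply List.map_congr_left
  intro i hi
  have hik : i < k := List.mem_range.mp hi
  unfold nm nl
  congr 1
  apply num_congr
  · intro j hj
    have := getD_pre x k j (by omega)
    unfold pre at this
    rw [this]
  · intro j hj
    rw [hv j (by omega)]
    simp

/-! ## The class -/

section

variable {C : Set ℕ → Prop} (hC : Clo C)

include hC

theorem cl_union {S T : Set ℕ} (hS : C S) (hT : C T) : C (S ∪ T) := by
  have h := hC.compl _ (hC.inter _ _ (hC.compl _ hS) (hC.compl _ hT))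
  rwa [Set.compl_inter, compl_compl, compl_compl] at h

theorem cl_all {S : Set ℕ} (hS : C S) : C {n | ∀ m, Nat.pair n m ∈ S} := by
  have h := hC.compl _ (hC.ex _ (hC.compl _ hS))
  convert h using 1
  ext n
  simp

theorem cl_prim {P : ℕ → Prop} (hP : PrimrecPred P) : C {n | P n} :=
  hC.comp P hP.computablePred

/-- Good numbers. -/
def Good (y : ℕ → ℕ) (v : ℕ) : Prop := ∀ i, i < (dl v).length → (dl v).getD i 0 = y i % 2

omit hC in
theorem prim_dl : Primrec dl := Primrec.ofNat (List ℕ)

theorem cl_good {y : ℕ → ℕ} (hy : C {i | y i % 2 = 1}) : C {v | Good y v} := by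
  have g1 : Primrec (fun n : ℕ => (dl n.unpair.1).getD n.unpair.2 0) :=
    (Primrec.list_getD 0).comp (prim_dl.comp (Primrec.fst.comp Primrec.unpair))
      (Primrec.snd.comp Primrec.unpair)
  have g2 : Primrec (fun n : ℕ => (dl n.unpair.1).length) :=
    Primrec.list_length.comp (prim_dl.comp (Primrec.fst.comp Primrec.unpair))
  have g3 : Primrec (fun n : ℕ => n.unpair.2) := Primrec.snd.comp Primrec.unpair
  have h0 : C {n : ℕ | ¬ n.unpair.2 < (dl n.unpair.1).length} :=
    cl_prim hC (Primrec.nat_lt.comp g3 g2).not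
  have h1 : C {n : ℕ | (dl n.unpair.1).getD n.unpair.2 0 = 1} :=
    cl_prim hC (Primrec.eq.comp g1 (Primrec.const 1))
  have h2 : C {n : ℕ | (dl n.unpair.1).getD n.unpair.2 0 = 0} :=
    cl_prim hC (Primrec.eq.comp g1 (Primrec.const 0))
  have h3 : C {n : ℕ | n.unpair.2 ∈ {i | y i % 2 = 1}} := hC.pre _ _ hy g3.to_comp
  have h4 := cl_all hC (cl_union hC h0 (cl_union hC (hC.inter _ _ h1 h3)
    (hC.inter _ _ h2 (hC.compl _ h3))))
  convert h4 using 1
  ext v
  simp only [Set.mem_setOf_eq, Good, Set.mem_union, Set.mem_inter_iff, Set.mem_compl_iff,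
    Nat.unpair_pair]
  refine forall_congr' fun i => ?_
  by_cases hi : i < (dl v).length
  · simp only [hi, true_imp_iff, not_true_eq_false, false_or]
    rcases Nat.mod_two_eq_zero_or_one (y i) with h | h
    · rw [h]; simp
    · rw [h]; simp
  · simp [hi]

end

/-! ## The main statement -/

theorem main : S_PRE := by
  intro hN C hC A hA y hy
  obtain ⟨R, hR, hA⟩ := hA
  -- the matrix
  let Q : ℕ → Prop := fun m =>
    (dl m.unpair.2).length = (dl m.unpair.1.unpair.1).length ∧
      R (FF (dl m.unpair.1.unpair.1) (dl m.unpair.2)) (dl m.unpair.1.unpair.2.unpair.1)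
        (dl m.unpair.1.unpair.2.unpair.2)
  have u1 : Primrec (fun m : ℕ => m.unpair.1) := Primrec.fst.comp Primrec.unpair
  have u2 : Primrec (fun m : ℕ => m.unpair.2) := Primrec.snd.comp Primrec.unpair
  have q1 : C {m | (dl m.unpair.2).length = (dl m.unpair.1.unpair.1).length} :=
    cl_prim hC (Primrec.eq.comp (Primrec.list_length.comp (prim_dl.comp u2))
      (Primrec.list_length.comp (prim_dl.comp (u1.comp u1))))
  have q2 : C {m | R (FF (dl m.unpair.1.unpair.1) (dl m.unpair.2))
      (dl m.unpair.1.unpair.2.unpair.1) (dl m.unpair.1.unpair.2.unpair.2)} := by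
    apply hC.comp
    have hg : Computable (fun m : ℕ => ((FF (dl m.unpair.1.unpair.1) (dl m.unpair.2),
        dl m.unpair.1.unpair.2.unpair.1, dl m.unpair.1.unpair.2.unpair.2) :
          List ℕ × List ℕ × List ℕ)) := by
      apply Primrec.to_comp
      exact Primrec.pair (prim_FF.comp (Primrec.pair (prim_dl.comp (u1.comp u1))
        (prim_dl.comp u2))) (Primrec.pair (prim_dl.comp (u1.comp (u2.comp u1)))
          (prim_dl.comp (u2.comp (u2.comp u1))))
    exact ComputablePred.computable_of_manyOneReducible ⟨_, hg, fun _ => Iff.rfl⟩ hR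
  have q3 : C {m | Good y m.unpair.2} := hC.pre _ _ (cl_good hC hy) u2.to_comp
  have q4 := hC.ex _ (hC.inter _ _ q3 (hC.inter _ _ q1 q2))
  refine ⟨_, q4, ?_⟩
  intro x
  show rr x y ∈ A ↔ _
  rw [hA (rr x y) (nm x y) (hN x y)]
  refine exists_congr fun t => forall_congr' fun z => exists_congr fun k => ?_
  have hd : ∀ s : List ℕ, dl (el s) = s := fun s => Denumerable.ofNat_encode s
  simp only [Set.mem_setOf_eq, Set.mem_inter_iff, cd, Nat.unpair_pair, hd]
  constructor
  · intro h
    refine ⟨el (pre (fun i => y i % 2) k), ?_, ?_, ?_⟩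
    · intro i hi
      rw [hd, length_pre] at hi
      rw [hd, getD_pre _ _ _ hi]
    · rw [hd, length_pre, length_pre]
    · rw [hd, FF_pre x y k _ (fun i hi => getD_pre _ _ _ hi)]
      exact h
  · rintro ⟨v, hv, hl, h⟩
    rw [length_pre] at hl
    rw [FF_pre x y k _ (fun i hi => hv i (by rw [hl]; exact hi))] at h
    exact h

end Pool.Agent.N861.SD.Pre
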